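import Mathlib
import Pool.Agent.P.MP_ab6a8b_al.IsoDec

set_option autoImplicit false
open Pointwise

namespace Pool.Agent.Results.MP_ab6a8b_al.Isomorphism

/-- The isomorphism problem for finitely generated inverse subsemigroups of free inverse
semigroups is decidable. Elements are Munn pairs (set of visited vertices, end point), and `G A`
is the inverse subsemigroup generated by the elements named by the words of `A`. -/
theorem result (G : List (List (ℕ × Bool)) → Set (Set (FreeGroup ℕ) × FreeGroup ℕ))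
    (hG : ∀ A, G A = {q | ∀ T : Set (Set (FreeGroup ℕ) × FreeGroup ℕ),
      (∀ w ∈ A, (Set.range (fun i : ℕ => FreeGroup.mk (w.take i)), FreeGroup.mk w) ∈ T) →
      (∀ x ∈ T, ∀ y ∈ T, (x.1 ∪ x.2 • y.1, x.2 * y.2) ∈ T) →
      (∀ x ∈ T, (x.2⁻¹ • x.1, x.2⁻¹) ∈ T) → q ∈ T}) :
    ComputablePred (fun AB : List (List (ℕ × Bool)) × List (List (ℕ × Bool)) =>
      (∀ w ∈ AB.1, w ≠ []) ∧ (∀ w ∈ AB.2, w ≠ []) ∧
      ∃ φ : Set (FreeGroup ℕ) × FreeGroup ℕ → Set (FreeGroup ℕ) × FreeGroup ℕ,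
        Set.BijOn φ (G AB.1) (G AB.2) ∧
        ∀ x ∈ G AB.1, ∀ y ∈ G AB.1, φ (x.1 ∪ x.2 • y.1, x.2 * y.2) =
          ((φ x).1 ∪ (φ x).2 • (φ y).1, (φ x).2 * (φ y).2)) := by
  obtain rfl : G = Pool.Agent.P.MP_ab6a8b_al.GenS := funext hG
  exact Pool.Agent.P.MP_ab6a8b_al.iso_main

end Pool.Agent.Results.MP_ab6a8b_al.Isomorphism
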